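import Pool.Agent.H79.TD.Stm

/-!
# The dimension of the space of forms of degree `e` in three variables
-/

set_option autoImplicit false

open MvPolynomial Module Pool.Agent.H77.TF Pool.Agent.H79.TD

namespace Pool.Agent.H53.TD

theorem t_DIM : S_DIM := by
  intro K _ e
  refine ⟨Module.Finite.iff_fg.2 (homogeneousSubmodule_fg (Fin 3) K e), ?_⟩
  rw [homogeneousSubmodule_eq_finsupp_supported]
  let es : ({d : Fin 3 →₀ ℕ | d.degree = e} : Set (Fin 3 →₀ ℕ)) ≃ Sym (Fin 3) e :=
    (Equiv.subtypeEquivRight (fun d => by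
      show d.degree = e ↔ d.sum (fun _ => id) = e
      exact Iff.rfl)).trans (Sym.equivNatSum (Fin 3) e).symm
  have : Fintype ({d : Fin 3 →₀ ℕ | d.degree = e} : Set (Fin 3 →₀ ℕ)) := Fintype.ofEquiv _ es.symm
  rw [(AddMonoidAlgebra.supportedEquivFinsupp (R := K) (S := K)
    ({d : Fin 3 →₀ ℕ | d.degree = e} : Set (Fin 3 →₀ ℕ))).finrank_eq, Module.finrank_finsupp_self,
    Fintype.card_congr es, Sym.card_sym_eq_choose, Fintype.card_fin]
  have h1 : 3 + e - 1 = e + 2 := by omega
  rw [h1, ← Nat.choose_symm_add]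

end Pool.Agent.H53.TD
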