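import Pool.Agent.H79.TD.Stm

/-!
# Duality for the evaluations at the uncovered points
-/

set_option autoImplicit false

open MvPolynomial Module Pool.Agent.H77.TF Pool.Agent.H79.TD

namespace Pool.Agent.H53.TD

theorem eval_smul_hom {K : Type} [Field K] {e : ℕ} {f : MvPolynomial (Fin 3) K} (hf : f.IsHomogeneous e)
    (c : K) (x : Fin 3 → K) : eval (c • x) f = c ^ e * eval x f := by
  rw [eval_eq', eval_eq', Finset.mul_sum]
  refine Finset.sum_congr rfl fun d hd => ?_
  have h1 : ∑ i, d i = e := by
    have h2 := hf (mem_support_iff.1 hd)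
    have h3 : d.degree = e := by
      rw [Finsupp.degree_eq_weight_one]
      exact h2
    rw [← h3, Finsupp.degree_eq_sum]
  have h3 : ∏ i, (c • x) i ^ d i = c ^ e * ∏ i, x i ^ d i := by
    rw [← h1, ← Finset.prod_pow_eq_pow_sum, ← Finset.prod_mul_distrib]
    refine Finset.prod_congr rfl fun i _ => ?_
    rw [Pi.smul_apply, smul_eq_mul, mul_pow]
  rw [h3]
  ring

theorem ker_rank {K : Type} [Field K] {ν : Type} {A : ν → Fin 3 → K} {R : Finset (Fin 3 → K)}
    (hR : IsRep A R) {e : ℕ} {W : Type} [AddCommGroup W] [Module K W]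
    (L : homogeneousSubmodule (Fin 3) K e →ₗ[K] W)
    (hL : ∀ h, L h = 0 ↔ ∀ r ∈ R, eval r (h : MvPolynomial (Fin 3) K) = 0) :
    finrank K (LinearMap.ker L) = finrank K (VD A e) := by
  have h1 : (LinearMap.ker L).map (homogeneousSubmodule (Fin 3) K e).subtype = VD A e := by
    ext f
    constructor
    · rintro ⟨h, hh, rfl⟩
      have h2 := (hL h).1 hh
      refine ⟨h.2, fun x hx => ?_⟩
      obtain ⟨r, hr, c, _, rfl⟩ := hR.2.1 x hx
      show eval (c • r) (h : MvPolynomial (Fin 3) K) = 0
      rw [eval_smul_hom h.2, h2 r hr, mul_zero]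
    · rintro ⟨hf, hf'⟩
      exact ⟨⟨f, hf⟩, (hL ⟨f, hf⟩).2 fun r hr => hf' r (hR.1 r hr), rfl⟩
  rw [← h1, Submodule.finrank_map_subtype_eq]

/-- the evaluation at `R`, multiplied by a function -/
noncomputable def ev {K : Type} [Field K] (R : Finset (Fin 3 → K)) (e : ℕ) :
    homogeneousSubmodule (Fin 3) K e →ₗ[K] (R → K) where
  toFun h r := eval (r : Fin 3 → K) (h : MvPolynomial (Fin 3) K)
  map_add' f g := by
    funext r
    simp
  map_smul' c f := by
    funext r
    simp [smul_eval]

/-- pairing with the evaluations at `R` -/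
noncomputable def pr {K : Type} [Field K] (R : Finset (Fin 3 → K)) (Q : MvPolynomial (Fin 3) K) (e : ℕ) :
    homogeneousSubmodule (Fin 3) K e →ₗ[K] Dual K (R → K) where
  toFun h := ∑ r : R, (eval (r : Fin 3 → K) (h : MvPolynomial (Fin 3) K) * eval (r : Fin 3 → K) Q) •
    LinearMap.proj r
  map_add' f g := by
    rw [← Finset.sum_add_distrib]
    refine Finset.sum_congr rfl fun r _ => ?_
    rw [← add_smul, Submodule.coe_add, map_add, add_mul]
  map_smul' c f := by
    rw [RingHom.id_apply, Finset.smul_sum]
    refine Finset.sum_congr rfl fun r _ => ?_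
    rw [smul_smul, Submodule.coe_smul, smul_eval, mul_assoc]

theorem eval_lin {K : Type} [Field K] (a x : Fin 3 → K) : eval x (lin a) = ∑ j, a j * x j := by
  unfold lin
  simp

theorem t_DU3 (hDIM : S_DIM) (hREP : S_REP) (hSUM : S_SUM) : S_DU3 := by
  classical
  intro K _ _ ν _ _ A e
  obtain ⟨R, hcard, hR⟩ := hREP K ν A
  have hfin : ∀ k, Module.Finite K (homogeneousSubmodule (Fin 3) K k) := fun k => (hDIM K k).1
  have hd : ∀ k, finrank K (homogeneousSubmodule (Fin 3) K k) = (k + 2).choose 2 := fun k => (hDIM K k).2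
  have hev : ∀ k (h : homogeneousSubmodule (Fin 3) K k), ev R k h = 0 ↔
      ∀ r ∈ R, eval r (h : MvPolynomial (Fin 3) K) = 0 := by
    intro k h
    constructor
    · intro h1 r hr
      exact congrFun h1 ⟨r, hr⟩
    · intro h1
      funext r
      exact h1 r r.2
  have hrn : ∀ k, finrank K (LinearMap.range (ev R k)) + finrank K (VD A k) = (k + 2).choose 2 := by
    intro k
    have := hfin k
    rw [← ker_rank hR (ev R k) (hev k), ← hd k]
    exact LinearMap.finrank_range_add_finrank_ker (ev R k)
  have hRc : finrank K (R → K) = uncD A := by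
    rw [Module.finrank_fintype_fun_eq_card, Fintype.card_coe, hcard]
  refine ⟨?_, ?_⟩
  · have h1 : finrank K (LinearMap.range (ev R e)) ≤ finrank K (R → K) := Submodule.finrank_le _
    have h2 := hrn e
    omega
  · intro e' he'
    have := hfin e
    have := hfin e'
    have hq : 1 ≤ Fintype.card K := Fintype.card_pos
    obtain ⟨Q, hQ⟩ : ∃ Q : MvPolynomial (Fin 3) K, Q = ∏ i, lin (A i) := ⟨_, rfl⟩
    have hQ0 : ∀ r ∈ R, eval r Q ≠ 0 := by
      intro r hr
      rw [hQ, map_prod, Finset.prod_ne_zero_iff]
      intro i _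
      rw [eval_lin]
      exact hR.1 r hr i
    have hQP : ∀ x, x ∉ Pts A → eval x Q = 0 := by
      intro x hx
      have h1 : ∃ i, ∑ j, A i j * x j = 0 := by
        by_contra hcon
        push Not at hcon
        exact hx hcon
      obtain ⟨i, hi⟩ := h1
      rw [hQ, map_prod]
      refine Finset.prod_eq_zero (Finset.mem_univ i) ?_
      rw [eval_lin, hi]
    have hQh : Q.IsHomogeneous (Fintype.card ν) := by
      rw [hQ]
      have h1 : (∏ i, lin (A i)).IsHomogeneous (∑ _i : ν, 1) := by
        refine IsHomogeneous.prod _ _ _ fun i _ => ?_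
        unfold lin
        refine IsHomogeneous.sum _ _ _ fun j _ => ?_
        simpa using (isHomogeneous_C (Fin 3) (A i j)).mul (isHomogeneous_X K j)
      simpa using h1
    -- the pairing
    have hpr : ∀ h : homogeneousSubmodule (Fin 3) K e', pr R Q e' h = 0 ↔
        ∀ r ∈ R, eval r (h : MvPolynomial (Fin 3) K) = 0 := by
      intro h
      have h1 : ∀ v : R → K, pr R Q e' h v =
          ∑ r : R, (eval (r : Fin 3 → K) (h : MvPolynomial (Fin 3) K) * eval (r : Fin 3 → K) Q) * v r := by
        intro v
        show (∑ r : R, (eval (r : Fin 3 → K) (h : MvPolynomial (Fin 3) K) * eval (r : Fin 3 → K) Q) •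
          (LinearMap.proj r : (R → K) →ₗ[K] K)) v = _
        rw [LinearMap.sum_apply]
        rfl
      constructor
      · intro h2 r hr
        have h3 := h1 (Pi.single ⟨r, hr⟩ 1)
        rw [h2, LinearMap.zero_apply, Finset.sum_eq_single ⟨r, hr⟩] at h3
        · rw [Pi.single_eq_same, mul_one] at h3
          exact (mul_eq_zero.1 h3.symm).resolve_right (hQ0 r hr)
        · intro b _ hb
          rw [Pi.single_eq_of_ne hb, mul_zero]
        · intro hcon
          exact absurd (Finset.mem_univ _) hcon
      · intro h2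
        refine LinearMap.ext fun v => ?_
        rw [h1, LinearMap.zero_apply]
        refine Finset.sum_eq_zero fun r _ => ?_
        rw [h2 r r.2, zero_mul, zero_mul]
    have hT : finrank K (LinearMap.range (pr R Q e')) + finrank K (VD A e') = (e' + 2).choose 2 := by
      rw [← ker_rank hR (pr R Q e') hpr, ← hd e']
      exact LinearMap.finrank_range_add_finrank_ker (pr R Q e')
    have hle : LinearMap.range (pr R Q e') ≤ LinearMap.ker (ev R e).dualMap := by
      rintro _ ⟨h, rfl⟩
      rw [LinearMap.mem_ker]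
      refine LinearMap.ext fun g => ?_
      show pr R Q e' h (ev R e g) = 0
      have h1 : pr R Q e' h (ev R e g) =
          ∑ r : R, (eval (r : Fin 3 → K) (h : MvPolynomial (Fin 3) K) * eval (r : Fin 3 → K) Q) *
            eval (r : Fin 3 → K) (g : MvPolynomial (Fin 3) K) := by
        show (∑ r : R, (eval (r : Fin 3 → K) (h : MvPolynomial (Fin 3) K) * eval (r : Fin 3 → K) Q) •
          (LinearMap.proj r : (R → K) →ₗ[K] K)) (ev R e g) = _
        rw [LinearMap.sum_apply]
        rfl
      rw [h1]
      have h2 := hSUM K ν A R hR ((g : MvPolynomial (Fin 3) K) * h * Q) (by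
        have h3 : 2 * (Fintype.card K - 1) = e + e' + Fintype.card ν := by omega
        rw [h3]
        exact (g.2.mul h.2).mul hQh) (fun x hx => by rw [map_mul, hQP x hx, mul_zero])
      rw [← h2, ← Finset.sum_coe_sort R]
      refine Finset.sum_congr rfl fun r _ => ?_
      rw [map_mul, map_mul]
      ring
    have h1 := Submodule.finrank_mono hle
    have h2 := LinearMap.finrank_range_add_finrank_ker (ev R e).dualMap
    rw [LinearMap.finrank_range_dualMap_eq_finrank_range, Subspace.dual_finrank_eq, hRc] at h2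
    have h3 := hrn e
    omega

end Pool.Agent.H53.TD
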