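import Pool.Agent.H79.TD.Stm6
import Pool.Agent.H53.TD.RES

/-!
Project SV (helper79), module RS2: RES with two more conclusions (the planes are different and contain
the form).
-/

set_option autoImplicit false

open MvPolynomial Module Pool.Agent.H77.TF Pool.Agent.H79.TD

namespace Pool.Agent.H53.TD

theorem t_RS2 : S_RS2 := by
  classical
  intro K _ ν _ A e i φ hS hφ hhom hex
  set h : Fin 3 → K := A i with hh
  have hh0 : h ≠ 0 := hS.1 i
  obtain ⟨j, hj⟩ : ∃ j, h j ≠ 0 := by
    by_contra hc
    push Not at hc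
    exact hh0 (funext hc)
  obtain ⟨ρ, hρX, hρa, hρr, hρ0⟩ := Pool.Agent.H77.TF.sub K 2 h j hj
  have hprime := (Pool.Agent.H77.TF.pri K 3 h hh0).1
  -- the quotient
  obtain ⟨g, hg1, hg2⟩ : ∃ g : MvPolynomial (Fin 3) K, (∀ l, (X l * g).IsHomogeneous e) ∧
      evl h φ = lin h * g := by
    obtain ⟨g, hg⟩ := hφ i
    have he : (evl h φ).IsHomogeneous e := Pool.Agent.H53.GR.evl_hom h hhom
    rcases Nat.eq_zero_or_pos e with h0 | h0
    · refine ⟨0, fun l => by rw [mul_zero]; exact isHomogeneous_zero _ _ _, ?_⟩
      rw [mul_zero]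
      rw [h0] at he
      have h1 : evl h φ = C (coeff 0 (evl h φ)) := by
        exact totalDegree_eq_zero_iff_eq_C.1 ((totalDegree_zero_iff_isHomogeneous (Fin 3)).2 he)
      by_contra hne
      have h2 : coeff 0 (evl h φ) ≠ 0 := fun h3 => hne (by rw [h1, h3, C_0])
      have h3 : IsUnit (evl h φ) := by
        rw [h1]
        exact (IsUnit.mk0 _ h2).map C
      exact hprime.not_isUnit (isUnit_of_dvd_unit ⟨g, hg⟩ h3)
    · obtain ⟨d, rfl⟩ : ∃ d, e = 1 + d := ⟨e - 1, by omega⟩
      refine ⟨homogeneousComponent d g, fun l =>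
        (isHomogeneous_X K l).mul (homogeneousComponent_isHomogeneous d g), ?_⟩
      rw [← Pool.Agent.H53.GR.comp_mul (lin h) g 1 d (Pool.Agent.H53.GR.lin_hom h), ← hg]
      have he' : evl h φ ∈ homogeneousSubmodule (Fin 3) K (1 + d) := he
      show evl h φ = homogeneousComponent (1 + d) (evl h φ)
      rw [homogeneousComponent_of_mem he', if_pos rfl]
  set φ' : Fin 3 → MvPolynomial (Fin 3) K := fun l => φ l - X l * g with hφ'
  have hev : ∀ x : Fin 3 → K, evl x φ' = evl x φ - lin x * g := by
    intro x
    unfold evl lin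
    rw [Finset.sum_mul, ← Finset.sum_sub_distrib]
    refine Finset.sum_congr rfl fun l _ => ?_
    show C (x l) * (φ l - X l * g) = _
    ring
  have hevh : evl h φ' = 0 := by rw [hev, hg2, sub_self]
  have hhom' : ∀ l, (φ' l).IsHomogeneous e := fun l => (hhom l).sub (hg1 l)
  set v : Fin 2 → MvPolynomial (Fin 2) K := fun k => ρ (φ' (j.succAbove k)) with hv
  have hvh : ∀ k, (v k).IsHomogeneous e := fun k =>
    Pool.Agent.H53.GR.rho_hom hj hρX hρa (hhom' _)
  have hsumρ : ∀ (x : Fin 3 → K) (w : Fin 3 → MvPolynomial (Fin 3) K),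
      ρ (∑ l, C (x l) * w l) = ∑ l, C (x l) * ρ (w l) := by
    intro x w
    rw [map_sum]
    refine Finset.sum_congr rfl fun l _ => ?_
    rw [map_mul, show ρ (C (x l)) = C (x l) from ρ.commutes _]
  have hX0 : ∑ l, C (h l) * ρ (X l) = 0 := by rw [← hsumρ]; exact hρa
  have hφ0 : ∑ l, C (h l) * ρ (φ' l) = 0 := by
    rw [← hsumρ]
    show ρ (evl h φ') = 0
    rw [hevh, map_zero]
  have hlin : ∀ x : Fin 3 → K, ρ (lin x) = lin (pj h j x) := by
    intro x
    unfold lin
    rw [hsumρ, fam hj _ hX0]
    exact Finset.sum_congr rfl fun k _ => by rw [hρX]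
  have hevl : ∀ x : Fin 3 → K, ρ (evl x φ') = evl (pj h j x) v := by
    intro x
    unfold evl
    rw [hsumρ, fam hj _ hφ0]
  -- the points of the plane on the arrangement
  set S : ν → Submodule K (Fin 3 → K) := fun l => Submodule.span K {h, A l} with hSd
  have mem_s : ∀ l, A l ∈ S l := fun l => Submodule.subset_span (by simp)
  have mem_a : ∀ l, h ∈ S l := fun l => Submodule.subset_span (by simp)
  have hne : ∀ l, l ≠ i → ∀ x : K, A l ≠ x • h := fun l hl x => hS.2 l i hl x
  have hss : ∀ k l, k ≠ i → A k ∈ S l → S k = S l := by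
    intro k l hk hkl
    obtain ⟨x, y, hxy⟩ := Submodule.mem_span_pair.1 hkl
    have hy : y ≠ 0 := by
      rintro rfl
      rw [zero_smul, add_zero] at hxy
      exact hne k hk x hxy.symm
    refine le_antisymm (Submodule.span_le.2 ?_) (Submodule.span_le.2 ?_)
    · rintro z (rfl | rfl)
      · exact mem_a l
      · exact hkl
    · rintro z (rfl | rfl)
      · exact mem_a k
      · have h1 : A l = y⁻¹ • (A k - x • h) := by
          rw [← hxy, add_sub_cancel_left, smul_smul, inv_mul_cancel₀ hy, one_smul]
        rw [SetLike.mem_coe, h1]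
        exact Submodule.smul_mem _ _ (Submodule.sub_mem _ (mem_s k)
          (Submodule.smul_mem _ _ (mem_a k)))
  set N : Finset ν := Finset.univ.erase i with hN
  have hNm : ∀ l, l ∈ N ↔ l ≠ i := fun l => by rw [hN, Finset.mem_erase]; simp
  set T : Finset (Submodule K (Fin 3 → K)) := N.image S with hT
  have hrep : ∀ W : T, ∃ k, k ∈ N ∧ S k = W.1 := fun W => by
    obtain ⟨k, h1, h2⟩ := Finset.mem_image.1 W.2
    exact ⟨k, h1, h2⟩
  choose rep hrep1 hrep2 using hrep
  have hrne : ∀ W, rep W ≠ i := fun W => (hNm _).1 (hrep1 W)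
  refine ⟨T, inferInstance, fun W => pj h j (A (rep W)),
    fun W => (N.filter (fun l => S l = W.1)).card, v, fun W => W.1, ?_, hvh, ?_, ?_, ?_, ?_, ?_,
    Subtype.val_injective, fun W => ?_⟩
  · -- simple
    constructor
    · intro W h0
      exact hne _ (hrne W) _ (pj_zero hj h0)
    · intro W W' hWW c hc
      replace hc : pj h j (A (rep W)) = c • pj h j (A (rep W')) := hc
      have h1 : pj h j (A (rep W) - c • A (rep W')) = 0 := by
        have h2 : pj h j (A (rep W) - c • A (rep W')) =
            pj h j (A (rep W)) - c • pj h j (A (rep W')) := by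
          funext k
          unfold pj
          simp only [Pi.sub_apply, Pi.smul_apply, smul_eq_mul]
          ring
        rw [h2, hc, sub_self]
      have h3 := pj_zero hj h1
      have h4 : A (rep W) ∈ S (rep W') := by
        refine Submodule.mem_span_pair.2 ⟨(A (rep W) - c • A (rep W')) j / h j, c, ?_⟩
        rw [← h3, sub_add_cancel]
      have h5 := hss _ _ (hrne W) h4
      rw [hrep2, hrep2] at h5
      exact hWW (Subtype.ext h5)
  · -- not radial
    intro h01
    obtain ⟨r, l, hrl⟩ := hex
    apply hrl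
    have key1 : ∀ a b : Fin 2, X a * v b = X b * v a := by
      intro a b
      fin_cases a <;> fin_cases b
      · rfl
      · exact h01
      · exact h01.symm
      · rfl
    have hCj : (C (h j) : MvPolynomial (Fin 2) K) ≠ 0 := by
      rw [Ne, C_eq_zero]
      exact hj
    have key2 : ∀ a : Fin 2, ρ (X j) * ρ (φ' (j.succAbove a)) =
        ρ (X (j.succAbove a)) * ρ (φ' j) := by
      intro a
      have e1 := hX0
      have e2 := hφ0
      rw [Fin.sum_univ_succAbove _ j, Fin.sum_univ_two] at e1 e2
      refine mul_left_cancel₀ hCj ?_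
      have k0 := key1 a 0
      have k1 := key1 a 1
      rw [← hρX a] at k0 k1
      rw [← hρX 0] at k0
      rw [← hρX 1] at k1
      simp only [hv] at k0 k1
      linear_combination ρ (φ' (j.succAbove a)) * e1 - ρ (X (j.succAbove a)) * e2 +
        C (h (j.succAbove 0)) * k0 + C (h (j.succAbove 1)) * k1
    have key3 : ∀ r l : Fin 3, ρ (X r) * ρ (φ' l) = ρ (X l) * ρ (φ' r) := by
      intro r l
      rcases Fin.eq_self_or_eq_succAbove j r with h1 | ⟨a, rfl⟩
      · rcases Fin.eq_self_or_eq_succAbove j l with h2 | ⟨b, rfl⟩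
        · rw [h1, h2]
        · rw [h1]
          exact key2 b
      · rcases Fin.eq_self_or_eq_succAbove j l with h2 | ⟨b, rfl⟩
        · rw [h2]
          exact (key2 a).symm
        · rw [hρX, hρX]
          exact key1 a b
    have h5 : X r * φ l - X l * φ r = X r * φ' l - X l * φ' r := by
      show _ = X r * (φ l - X l * g) - X l * (φ r - X r * g)
      ring
    rw [h5]
    refine hρ0 _ ?_
    rw [map_sub, map_mul, map_mul, key3 r l, sub_self]
  · -- the multiplicities are positive
    intro W
    exact Finset.card_pos.2 ⟨rep W, Finset.mem_filter.2 ⟨hrep1 W, hrep2 W⟩⟩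
  · -- divisibility
    intro W
    set s := N.filter (fun l => S l = W.1) with hs
    have hcoef : ∀ l ∈ s, ∃ x y : K, y ≠ 0 ∧ A l = x • h + y • A (rep W) := by
      intro l hl
      obtain ⟨h1, h2⟩ := Finset.mem_filter.1 hl
      have h3 : A l ∈ S (rep W) := by
        rw [hrep2, ← h2]
        exact mem_s l
      obtain ⟨x, y, hxy⟩ := Submodule.mem_span_pair.1 h3
      refine ⟨x, y, ?_, hxy.symm⟩
      rintro rfl
      rw [zero_smul, add_zero] at hxy
      exact hne l ((hNm l).1 h1) x hxy.symm
    have hdv : ∀ l ∈ s, lin (A l) ∣ evl (A (rep W)) φ' := by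
      intro l hl
      obtain ⟨x, y, hy, hxy⟩ := hcoef l hl
      have h1 : lin (A l) ∣ evl (A l) φ' := by
        rw [hev]
        exact dvd_sub (hφ l) (dvd_mul_right _ _)
      have h2 : evl (A l) φ' = C y * evl (A (rep W)) φ' := by
        have h3 : evl (A l) φ' = C x * evl h φ' + C y * evl (A (rep W)) φ' := by
          conv_lhs => rw [hxy]
          unfold evl
          rw [Finset.mul_sum, Finset.mul_sum, ← Finset.sum_add_distrib]
          refine Finset.sum_congr rfl fun l _ => ?_
          rw [Pi.add_apply, Pi.smul_apply, Pi.smul_apply, smul_eq_mul, smul_eq_mul, C_add, C_mul,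
            C_mul]
          ring
        rw [h3, hevh, mul_zero, zero_add]
      have h4 : evl (A (rep W)) φ' = C y⁻¹ * evl (A l) φ' := by
        rw [h2, ← mul_assoc, ← C_mul, inv_mul_cancel₀ hy, C_1, one_mul]
      rw [h4]
      exact dvd_mul_of_dvd_right h1 _
    have h1 := Pool.Agent.H27.TF.prod_dvd Pool.Agent.H77.TF.pri hS s hdv
    have h2 : ρ (∏ l ∈ s, lin (A l)) ∣ ρ (evl (A (rep W)) φ') := map_dvd ρ h1
    rw [hevl, map_prod] at h2
    have h3 : ∀ l ∈ s, lin (pj h j (A (rep W))) ∣ ρ (lin (A l)) := by
      intro l hl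
      obtain ⟨x, y, hy, hxy⟩ := hcoef l hl
      rw [hlin, hxy, pj_comb hj]
      refine ⟨C y, ?_⟩
      unfold lin
      rw [Finset.sum_mul]
      refine Finset.sum_congr rfl fun k _ => ?_
      rw [Pi.smul_apply, smul_eq_mul, C_mul]
      ring
    have h4 : (lin (pj h j (A (rep W)))) ^ s.card ∣ ∏ l ∈ s, ρ (lin (A l)) := by
      rw [← Finset.prod_const]
      exact Finset.prod_dvd_prod_of_dvd _ _ h3
    exact h4.trans h2
  · -- the sum
    have h1 : ∑ W : T, (N.filter (fun l => S l = W.1)).card = N.card := by
      rw [Finset.card_eq_sum_card_fiberwise (f := S) (t := T)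
        (fun l hl => Finset.mem_image_of_mem S hl)]
      exact Finset.sum_coe_sort T (fun W => (N.filter (fun l => S l = W)).card)
    have h2 : N.card + 1 = Fintype.card ν := by
      rw [hN, Finset.card_erase_of_mem (Finset.mem_univ i), Finset.card_univ]
      have : 0 < Fintype.card ν := Fintype.card_pos_iff.2 ⟨i⟩
      omega
    rw [← h2, ← h1]
  · -- the planes
    intro W
    constructor
    · have hli : LinearIndependent K ![h, A (rep W)] := by
        rw [LinearIndependent.pair_iff]
        intro s t hst
        have ht : t = 0 := by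
          by_contra ht
          refine hne _ (hrne W) (-(t⁻¹ * s)) ?_
          have h1 : t • A (rep W) = -(s • h) := eq_neg_of_add_eq_zero_right hst
          calc A (rep W) = t⁻¹ • (t • A (rep W)) := by
                rw [smul_smul, inv_mul_cancel₀ ht, one_smul]
            _ = _ := by rw [h1, smul_neg, smul_smul, neg_smul]
        refine ⟨?_, ht⟩
        rw [ht, zero_smul, add_zero] at hst
        exact (smul_eq_zero.1 hst).resolve_right hh0
      have h1 := finrank_span_eq_card hli
      rw [Fintype.card_fin] at h1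
      have h2 : Set.range ![h, A (rep W)] = {h, A (rep W)} := by
        ext z
        rw [Set.mem_range, Fin.exists_fin_two, Set.mem_insert_iff, Set.mem_singleton_iff]
        exact or_congr eq_comm eq_comm
      rw [h2] at h1
      show finrank K W.1 = 2
      rw [← hrep2 W]
      exact h1
    · have h1 : ∀ l, A l ∈ W.1 ↔ l = i ∨ (l ∈ N ∧ S l = W.1) := by
        intro l
        constructor
        · intro h2
          by_cases hl : l = i
          · exact Or.inl hl
          · refine Or.inr ⟨(hNm l).2 hl, ?_⟩
            rw [← hrep2 W] at h2 ⊢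
            exact hss _ _ hl h2
        · rintro (rfl | ⟨h2, h3⟩)
          · rw [← hrep2 W]
            exact mem_a _
          · rw [← h3]
            exact mem_s l
      rw [Nat.card_eq_fintype_card, Fintype.card_subtype]
      have h2 : (Finset.univ.filter (fun l => A l ∈ W.1)) =
          insert i (N.filter (fun l => S l = W.1)) := by
        ext l
        rw [Finset.mem_filter, Finset.mem_insert, Finset.mem_filter, h1]
        simp
      rw [h2, Finset.card_insert_of_notMem]
      intro h3
      exact (hNm i).1 (Finset.mem_filter.1 h3).1 rfl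
  · -- the plane contains the form
    show h ∈ W.1
    rw [← hrep2 W]
    exact mem_a _

end Pool.Agent.H53.TD
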